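import Pool.Agent.helper57.PP.Spec

/-! # MP_974a61: row C5 (the new geodesic and the new half) -/

set_option autoImplicit false

namespace Pool.Agent.helper57.PP

open Finset

theorem C5_mod (M i j : ℕ) (hj : j < M) :
    (i + j) % M = if i % M + j < M then i % M + j else i % M + j - M := by
  have h0 : 0 < M := by omega
  have h1 := Nat.mod_lt i h0
  rw [Nat.add_mod, Nat.mod_eq_of_lt hj]
  split_ifs with h
  · exact Nat.mod_eq_of_lt h
  · rw [Nat.mod_eq_sub_mod (by omega)]
    exact Nat.mod_eq_of_lt (by omega)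

section

variable {W : Type} [DecidableEq W] {σ : W → W}

theorem C5_inj (hσ : ∀ x, σ (σ x) = x) : Function.Injective σ := by
  intro a b h
  rw [← hσ a, ← hσ b, h]

theorem C5_im2 (hσ : ∀ x, σ (σ x) = x) (s : Finset W) : (s.image σ).image σ = s := by
  rw [Finset.image_image]
  have : σ ∘ σ = id := funext hσ
  rw [this, Finset.image_id]

theorem C5_iminj (hσ : ∀ x, σ (σ x) = x) : Function.Injective (Finset.image σ) := by
  intro a b h
  rw [← C5_im2 hσ a, ← C5_im2 hσ b, h]

theorem C5_mem_im (hσ : ∀ x, σ (σ x) = x) (D : Finset (Finset W)) (t : Finset W) :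
    t ∈ D.image (Finset.image σ) ↔ t.image σ ∈ D := by
  rw [mem_image]
  constructor
  · rintro ⟨d, hd, rfl⟩
    rwa [C5_im2 hσ]
  · intro h
    exact ⟨_, h, C5_im2 hσ t⟩

theorem C5_sub (hσ : ∀ x, σ (σ x) = x) (e d : Finset W) : e ⊆ d.image σ ↔ e.image σ ⊆ d := by
  constructor
  · intro h
    have := Finset.image_subset_image (f := σ) h
    rwa [C5_im2 hσ] at this
  · intro h
    have := Finset.image_subset_image (f := σ) h
    rwa [C5_im2 hσ] at this

theorem C5_cof (hσ : ∀ x, σ (σ x) = x) (D : Finset (Finset W)) (e : Finset W) :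
    cof (D.image (Finset.image σ)) e = (cof D (e.image σ)).image (Finset.image σ) := by
  ext t
  rw [mem_cof, C5_mem_im hσ, C5_mem_im hσ, mem_cof, ← C5_sub hσ, C5_im2 hσ]

theorem C5_bd (hσ : ∀ x, σ (σ x) = x) (D : Finset (Finset W)) (e : Finset W) :
    e ∈ bd (D.image (Finset.image σ)) ↔ e.image σ ∈ bd D := by
  rw [mem_bd, mem_bd, C5_cof hσ, Finset.card_image_of_injective _ (C5_iminj hσ),
    Finset.card_image_of_injective _ (C5_inj hσ)]

theorem C5_edge {G : Finset (Finset W)} (hσ : ∀ x, σ (σ x) = x) (hG : ∀ t ∈ G, t.image σ ∈ G)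
    {u v : W} (h : ({u, v} : Finset W) ∈ edges G) : ({σ u, σ v} : Finset W) ∈ edges G := by
  rw [mem_edges] at h ⊢
  obtain ⟨h1, t, ht, h2⟩ := h
  have e : ({σ u, σ v} : Finset W) = ({u, v} : Finset W).image σ := by
    rw [Finset.image_insert, Finset.image_singleton]
  rw [e]
  exact ⟨by rw [Finset.card_image_of_injective _ (C5_inj hσ)]; exact h1, t.image σ, hG t ht,
    Finset.image_subset_image h2⟩

theorem C5_impair (u v : W) : ({u, v} : Finset W).image σ = {σ u, σ v} := by
  rw [Finset.image_insert, Finset.image_singleton]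

theorem C5_imeq (hσ : ∀ x, σ (σ x) = x) (e : Finset W) (u v : W) :
    e.image σ = {u, v} ↔ e = {σ u, σ v} := by
  rw [← C5_impair]
  constructor
  · intro h
    rw [← h, C5_im2 hσ]
  · intro h
    rw [h, C5_im2 hσ]

end

theorem C5_rp {W : Type} (σ : W → W) (m : ℕ) (p : ℕ → W) (x : W) (i : ℕ) :
    rp σ m p x i = if i % (2 * m) = 0 then x else if i % (2 * m) = m then σ x else p i := rfl

/-- the geodesic part -/
theorem C5_geo {W : Type} [DecidableEq W] {G : Finset (Finset W)} {σ : W → W} {m : ℕ} {p : ℕ → W}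
    {x : W} (hG : Dbl G σ) (hp : Geo G σ m p) (h2m : ∀ i, p (i + 2 * m) = p i)
    (e1 : {x, p 1} ∈ edges G) (e2 : {x, p (2 * m - 1)} ∈ edges G) : Geo G σ m (rp σ m p x) := by
  have hm := hp.m3
  have hper : ∀ i, p (i % (2 * m)) = p i := fun i =>
    Function.Periodic.map_mod_nat (f := p) (a := 2 * m) (fun j => h2m j) i
  have hpos : 0 < 2 * m := by omega
  refine ⟨hm, ?_, ?_, hp.min⟩
  · intro i
    have h1 := Nat.mod_lt i hpos
    have h2 := C5_mod (2 * m) i m (by omega)
    rw [C5_rp, C5_rp]
    by_cases ha : i % (2 * m) = 0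
    · have h3 : (i + m) % (2 * m) = m := by
        rw [h2, ha, if_pos (by omega), zero_add]
      rw [h3, if_neg (by omega), if_pos rfl, ha, if_pos rfl]
    · by_cases hb : i % (2 * m) = m
      · have h3 : (i + m) % (2 * m) = 0 := by
          rw [h2, hb, if_neg (by omega)]
          omega
        rw [h3, if_pos rfl, hb, if_neg (by omega), if_pos rfl, hG.invol]
      · have h3 : (i + m) % (2 * m) ≠ 0 := by
          rw [h2]
          split_ifs <;> omega
        have h4 : (i + m) % (2 * m) ≠ m := by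
          rw [h2]
          split_ifs <;> omega
        rw [if_neg h3, if_neg h4, if_neg ha, if_neg hb]
        exact hp.per i
  · intro i
    have h1 := Nat.mod_lt i hpos
    have h2 := C5_mod (2 * m) i 1 (by omega)
    rw [C5_rp, C5_rp]
    by_cases ha : i % (2 * m) = 0
    · have h4 : (i + 1) % (2 * m) = 1 := by
        rw [h2, ha, if_pos (by omega)]
      have h3 : p (i + 1) = p 1 := by
        rw [← hper (i + 1), h4]
      rw [ha, if_pos rfl, h4, if_neg (by omega), if_neg (by omega), h3]
      exact e1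
    · by_cases hb : i % (2 * m) = m
      · have h4 : (i + 1) % (2 * m) = m + 1 := by
          rw [h2, hb, if_pos (by omega)]
        have h3 : p (i + 1) = σ (p 1) := by
          rw [← hper (i + 1), h4, ← hp.per 1, add_comm]
        rw [hb, if_neg (by omega), if_pos rfl, h4, if_neg (by omega), if_neg (by omega), h3]
        exact C5_edge hG.invol hG.inv e1
      · by_cases hc : i % (2 * m) = 2 * m - 1
        · have h4 : (i + 1) % (2 * m) = 0 := by
            rw [h2, hc, if_neg (by omega)]
            omega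
          have h3 : p i = p (2 * m - 1) := by rw [← hper i, hc]
          rw [if_neg ha, if_neg hb, h4, if_pos rfl, h3, Finset.pair_comm]
          exact e2
        · by_cases hd : i % (2 * m) = m - 1
          · have h4' : (i + 1) % (2 * m) = m := by
              rw [h2, hd, if_pos (by omega)]
              omega
            have h3 : p i = σ (p (2 * m - 1)) := by
              rw [← hper i, hd]
              have h4 := hp.per (m - 1)
              have h5 : m - 1 + m = 2 * m - 1 := by omega
              rw [h5] at h4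
              rw [h4, hG.invol]
            rw [if_neg ha, if_neg hb, h4', if_neg (by omega), if_pos rfl, h3, Finset.pair_comm]
            exact C5_edge hG.invol hG.inv e2
          · have h3 : (i + 1) % (2 * m) ≠ 0 := by
              rw [h2]
              split_ifs <;> omega
            have h4 : (i + 1) % (2 * m) ≠ m := by
              rw [h2]
              split_ifs <;> omega
            rw [if_neg ha, if_neg hb, if_neg h3, if_neg h4]
            exact hp.edge i

theorem C5_zt {W : Type} [DecidableEq W] (m : ℕ) (p : ℕ → W) (e : Finset W) :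
    e ∈ zt m p ↔ ∃ i, i < 2 * m ∧ ({p i, p (i + 1)} : Finset W) = e := by
  unfold zt
  rw [mem_image]
  constructor
  · rintro ⟨i, hi, h⟩
    exact ⟨i, mem_range.1 hi, h⟩
  · rintro ⟨i, hi, h⟩
    exact ⟨i, mem_range.2 hi, h⟩

/-- the edges of the new cycle -/
theorem C5_ztrp {W : Type} [DecidableEq W] (σ : W → W) (m : ℕ) (p : ℕ → W) (x : W) (hm : 3 ≤ m)
    (e : Finset W) : e ∈ zt m (rp σ m p x) ↔
      (∃ i, i < 2 * m ∧ i ≠ 0 ∧ i ≠ m ∧ i ≠ m - 1 ∧ i ≠ 2 * m - 1 ∧ ({p i, p (i + 1)} : Finset W) = e) ∨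
      {x, p 1} = e ∨ {σ x, p (m + 1)} = e ∨ {p (m - 1), σ x} = e ∨ {p (2 * m - 1), x} = e := by
  have r0 : rp σ m p x 0 = x := by rw [C5_rp]; simp
  have rm : rp σ m p x m = σ x := by
    rw [C5_rp, Nat.mod_eq_of_lt (by omega), if_neg (by omega), if_pos rfl]
  have r2 : rp σ m p x (2 * m) = x := by rw [C5_rp]; simp
  have ri : ∀ i, i < 2 * m → i ≠ 0 → i ≠ m → rp σ m p x i = p i := by
    intro i h1 h2 h3
    rw [C5_rp, Nat.mod_eq_of_lt h1, if_neg h2, if_neg h3]
  rw [C5_zt]
  constructor
  · rintro ⟨i, hi, h⟩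
    by_cases h0 : i = 0
    · subst h0
      rw [r0, ri _ (by omega) (by omega) (by omega)] at h
      exact Or.inr (Or.inl h)
    · by_cases h1 : i = m
      · subst h1
        rw [rm, ri _ (by omega) (by omega) (by omega)] at h
        exact Or.inr (Or.inr (Or.inl h))
      · by_cases h2 : i = m - 1
        · subst h2
          have h3 : m - 1 + 1 = m := by omega
          rw [h3, rm, ri _ (by omega) (by omega) (by omega)] at h
          exact Or.inr (Or.inr (Or.inr (Or.inl h)))
        · by_cases h3 : i = 2 * m - 1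
          · subst h3
            have h4 : 2 * m - 1 + 1 = 2 * m := by omega
            rw [h4, r2, ri _ (by omega) (by omega) (by omega)] at h
            exact Or.inr (Or.inr (Or.inr (Or.inr h)))
          · rw [ri _ (by omega) (by omega) (by omega), ri _ (by omega) (by omega) (by omega)] at h
            exact Or.inl ⟨i, hi, h0, h1, h2, h3, h⟩
  · rintro (⟨i, hi, h0, h1, h2, h3, h⟩ | h | h | h | h)
    · refine ⟨i, hi, ?_⟩
      rw [ri _ (by omega) (by omega) (by omega), ri _ (by omega) (by omega) (by omega)]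
      exact h
    · refine ⟨0, by omega, ?_⟩
      rw [r0, ri _ (by omega) (by omega) (by omega)]
      exact h
    · refine ⟨m, by omega, ?_⟩
      rw [rm, ri _ (by omega) (by omega) (by omega)]
      exact h
    · refine ⟨m - 1, by omega, ?_⟩
      have h3 : m - 1 + 1 = m := by omega
      rw [h3, rm, ri _ (by omega) (by omega) (by omega)]
      exact h
    · refine ⟨2 * m - 1, by omega, ?_⟩
      have h4 : 2 * m - 1 + 1 = 2 * m := by omega
      rw [h4, r2, ri _ (by omega) (by omega) (by omega)]
      exact h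

theorem C5_prop (Z Q0 Q1 Q2 Q3 : Prop) (a0 : Q0 → Z) (a1 : Q1 → Z) (a2 : Q2 → Z) (a3 : Q3 → Z)
    (b0 : Q0 → ¬ Q2) (b1 : Q0 → ¬ Q3) (b2 : Q1 → ¬ Q2) (b3 : Q1 → ¬ Q3) :
    (((Z ∧ ¬ (Q0 ∨ Q1)) ∨ ((Q0 ∨ Q1) ∧ ¬ Z)) ∧ ¬ (Q2 ∨ Q3) ∨
      (Q2 ∨ Q3) ∧ ¬ ((Z ∧ ¬ (Q0 ∨ Q1)) ∨ ((Q0 ∨ Q1) ∧ ¬ Z))) ↔
      (Z ∧ ¬ Q0 ∧ ¬ Q1 ∧ ¬ Q2 ∧ ¬ Q3) := by
  by_cases hz : Z
  · by_cases h0 : Q0
    · simp [hz, h0, b0 h0, b1 h0]
    · by_cases h1 : Q1
      · simp [hz, h0, h1, b2 h1, b3 h1]
      · by_cases h2 : Q2
        · simp [hz, h0, h1, h2]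
        · simp [hz, h0, h1, h2]
  · have c0 : ¬ Q0 := fun h => hz (a0 h)
    have c1 : ¬ Q1 := fun h => hz (a1 h)
    have c2 : ¬ Q2 := fun h => hz (a2 h)
    have c3 : ¬ Q3 := fun h => hz (a3 h)
    simp [hz, c0, c1, c2, c3]

/-- the boundary of the new half -/
theorem C5_bdA {W : Type} [DecidableEq W] {σ : W → W} {m : ℕ} {p : ℕ → W}
    {x : W} (hm : 3 ≤ m) (hσ : ∀ x, σ (σ x) = x) (hfix : σ x ≠ x)
    (hper : ∀ i, p (i + m) = σ (p i)) (h2m : ∀ i, p (i + 2 * m) = p i)
    (hx : ∀ i, x ≠ p i)
    (hinj : ∀ i < 2 * m, ∀ j < 2 * m, ({p i, p (i + 1)} : Finset W) = {p j, p (j + 1)} → i = j) :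
    symmDiff (symmDiff (zt m p)
      {{p 0, p 1}, {p 1, x}, {x, p (2 * m - 1)}, {p (2 * m - 1), p 0}})
      (({{p 0, p 1}, {p 1, x}, {x, p (2 * m - 1)}, {p (2 * m - 1), p 0}} :
        Finset (Finset W)).image (Finset.image σ)) = zt m (rp σ m p x) := by
  have hσx : ∀ i, σ x ≠ p i := by
    intro i h
    apply hx (i + m)
    rw [hper, ← h, hσ]
  have s0 : σ (p 0) = p m := by
    have := hper 0
    rw [zero_add] at this
    exact this.symm
  have s1 : σ (p 1) = p (m + 1) := by
    have := hper 1
    rw [add_comm] at this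
    exact this.symm
  have s2 : σ (p (2 * m - 1)) = p (m - 1) := by
    have h4 := hper (m - 1)
    have h5 : m - 1 + m = 2 * m - 1 := by omega
    rw [h5] at h4
    rw [h4, hσ]
  have p2m : p (2 * m) = p 0 := by
    have := h2m 0
    rwa [zero_add] at this
  have hm1 : m - 1 + 1 = m := by omega
  have hm2 : 2 * m - 1 + 1 = 2 * m := by omega
  have E0 : ({p 0, p 1} : Finset W) = {p 0, p (0 + 1)} := by rw [zero_add]
  have E4 : ({p (2 * m - 1), p 0} : Finset W) = {p (2 * m - 1), p (2 * m - 1 + 1)} := by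
    rw [hm2, p2m]
  ext e
  rw [mem_symmDiff, mem_symmDiff, C5_mem_im hσ, C5_ztrp σ m p x hm e]
  simp only [mem_insert, mem_singleton]
  rw [C5_imeq hσ, C5_imeq hσ, C5_imeq hσ, C5_imeq hσ, s0, s1, s2]
  by_cases hxe : x ∈ e
  · have n1 : e ∉ zt m p := by
      rw [C5_zt]
      rintro ⟨i, -, rfl⟩
      rw [mem_insert, mem_singleton] at hxe
      exact hxe.elim (hx _) (hx _)
    have n2 : e ≠ {p 0, p 1} := by
      rintro rfl
      rw [mem_insert, mem_singleton] at hxe
      exact hxe.elim (hx _) (hx _)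
    have n3 : e ≠ {p (2 * m - 1), p 0} := by
      rintro rfl
      rw [mem_insert, mem_singleton] at hxe
      exact hxe.elim (hx _) (hx _)
    have n4 : e ≠ {p m, p (m + 1)} := by
      rintro rfl
      rw [mem_insert, mem_singleton] at hxe
      exact hxe.elim (hx _) (hx _)
    have n5 : e ≠ {p (m - 1), p m} := by
      rintro rfl
      rw [mem_insert, mem_singleton] at hxe
      exact hxe.elim (hx _) (hx _)
    have n6 : e ≠ {p (m + 1), σ x} := by
      rintro rfl
      rw [mem_insert, mem_singleton] at hxe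
      exact hxe.elim (hx _) (fun h => hfix h.symm)
    have n7 : e ≠ {σ x, p (m - 1)} := by
      rintro rfl
      rw [mem_insert, mem_singleton] at hxe
      exact hxe.elim (fun h => hfix h.symm) (hx _)
    have n8 : ¬ ∃ i, i < 2 * m ∧ i ≠ 0 ∧ i ≠ m ∧ i ≠ m - 1 ∧ i ≠ 2 * m - 1 ∧
        ({p i, p (i + 1)} : Finset W) = e := by
      rintro ⟨i, hi, -, -, -, -, h⟩
      exact n1 ((C5_zt m p e).2 ⟨i, hi, h⟩)
    have n9 : ¬ ({σ x, p (m + 1)} : Finset W) = e := by
      intro h
      exact n6 (by rw [← h, Finset.pair_comm])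
    have n10 : ¬ ({p (m - 1), σ x} : Finset W) = e := by
      intro h
      exact n7 (by rw [← h, Finset.pair_comm])
    have c1 : ({x, p 1} : Finset W) = e ↔ e = {p 1, x} := by
      rw [eq_comm, Finset.pair_comm]
    have c2 : ({p (2 * m - 1), x} : Finset W) = e ↔ e = {x, p (2 * m - 1)} := by
      rw [eq_comm, Finset.pair_comm]
    simp only [n1, n2, n3, n4, n5, n6, n7, n8, n9, n10, c1, c2, false_or, or_false, false_and,
      and_false, not_false_eq_true, and_true, true_and]
  · by_cases hse : σ x ∈ e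
    · have n1 : e ∉ zt m p := by
        rw [C5_zt]
        rintro ⟨i, -, rfl⟩
        rw [mem_insert, mem_singleton] at hse
        exact hse.elim (hσx _) (hσx _)
      have n2 : e ≠ {p 0, p 1} := by
        rintro rfl
        rw [mem_insert, mem_singleton] at hse
        exact hse.elim (hσx _) (hσx _)
      have n3 : e ≠ {p (2 * m - 1), p 0} := by
        rintro rfl
        rw [mem_insert, mem_singleton] at hse
        exact hse.elim (hσx _) (hσx _)
      have n4 : e ≠ {p m, p (m + 1)} := by
        rintro rfl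
        rw [mem_insert, mem_singleton] at hse
        exact hse.elim (hσx _) (hσx _)
      have n5 : e ≠ {p (m - 1), p m} := by
        rintro rfl
        rw [mem_insert, mem_singleton] at hse
        exact hse.elim (hσx _) (hσx _)
      have n6 : e ≠ {p 1, x} := by
        rintro rfl
        exact hxe (by simp)
      have n7 : e ≠ {x, p (2 * m - 1)} := by
        rintro rfl
        exact hxe (by simp)
      have n8 : ¬ ∃ i, i < 2 * m ∧ i ≠ 0 ∧ i ≠ m ∧ i ≠ m - 1 ∧ i ≠ 2 * m - 1 ∧
          ({p i, p (i + 1)} : Finset W) = e := by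
        rintro ⟨i, hi, -, -, -, -, h⟩
        exact n1 ((C5_zt m p e).2 ⟨i, hi, h⟩)
      have n9 : ¬ ({x, p 1} : Finset W) = e := by
        intro h
        exact n6 (by rw [← h, Finset.pair_comm])
      have n10 : ¬ ({p (2 * m - 1), x} : Finset W) = e := by
        intro h
        exact n7 (by rw [← h, Finset.pair_comm])
      have c1 : ({σ x, p (m + 1)} : Finset W) = e ↔ e = {p (m + 1), σ x} := by
        rw [eq_comm, Finset.pair_comm]
      have c2 : ({p (m - 1), σ x} : Finset W) = e ↔ e = {σ x, p (m - 1)} := by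
        rw [eq_comm, Finset.pair_comm]
      simp only [n1, n2, n3, n4, n5, n6, n7, n8, n9, n10, c1, c2, false_or, or_false, false_and,
        and_false, not_false_eq_true, and_true, true_and]
    · have n6 : e ≠ {p 1, x} := by
        rintro rfl
        exact hxe (by simp)
      have n7 : e ≠ {x, p (2 * m - 1)} := by
        rintro rfl
        exact hxe (by simp)
      have n11 : e ≠ {p (m + 1), σ x} := by
        rintro rfl
        exact hse (by simp)
      have n12 : e ≠ {σ x, p (m - 1)} := by
        rintro rfl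
        exact hse (by simp)
      have n9 : ¬ ({x, p 1} : Finset W) = e := by
        intro h
        exact n6 (by rw [← h, Finset.pair_comm])
      have n10 : ¬ ({p (2 * m - 1), x} : Finset W) = e := by
        intro h
        exact n7 (by rw [← h, Finset.pair_comm])
      have n13 : ¬ ({σ x, p (m + 1)} : Finset W) = e := by
        intro h
        exact n11 (by rw [← h, Finset.pair_comm])
      have n14 : ¬ ({p (m - 1), σ x} : Finset W) = e := by
        intro h
        exact n12 (by rw [← h, Finset.pair_comm])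
      have a0 : e = {p 0, p 1} → e ∈ zt m p := fun h =>
        (C5_zt m p e).2 ⟨0, by omega, by rw [h, zero_add]⟩
      have a1 : e = {p (2 * m - 1), p 0} → e ∈ zt m p := fun h =>
        (C5_zt m p e).2 ⟨2 * m - 1, by omega, by rw [h, E4]⟩
      have a2 : e = {p m, p (m + 1)} → e ∈ zt m p := fun h =>
        (C5_zt m p e).2 ⟨m, by omega, h.symm⟩
      have a3 : e = {p (m - 1), p m} → e ∈ zt m p := fun h =>
        (C5_zt m p e).2 ⟨m - 1, by omega, by rw [h, hm1]⟩
      have b0 : e = {p 0, p 1} → e ≠ {p m, p (m + 1)} := by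
        intro h h'
        have := hinj 0 (by omega) m (by omega) (by rw [zero_add, ← h, h'])
        omega
      have b1 : e = {p 0, p 1} → e ≠ {p (m - 1), p m} := by
        intro h h'
        have := hinj 0 (by omega) (m - 1) (by omega) (by rw [zero_add, ← h, h', hm1])
        omega
      have b2 : e = {p (2 * m - 1), p 0} → e ≠ {p m, p (m + 1)} := by
        intro h h'
        have := hinj (2 * m - 1) (by omega) m (by omega) (by rw [← E4, ← h, h'])
        omega
      have b3 : e = {p (2 * m - 1), p 0} → e ≠ {p (m - 1), p m} := by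
        intro h h'
        have := hinj (2 * m - 1) (by omega) (m - 1) (by omega) (by rw [← E4, ← h, h', hm1])
        omega
      have key : (∃ i, i < 2 * m ∧ i ≠ 0 ∧ i ≠ m ∧ i ≠ m - 1 ∧ i ≠ 2 * m - 1 ∧
          ({p i, p (i + 1)} : Finset W) = e) ↔ e ∈ zt m p ∧ e ≠ {p 0, p 1} ∧
          e ≠ {p (2 * m - 1), p 0} ∧ e ≠ {p m, p (m + 1)} ∧ e ≠ {p (m - 1), p m} := by
        constructor
        · rintro ⟨i, hi, h0, h1, h2, h3, h⟩
          refine ⟨(C5_zt m p e).2 ⟨i, hi, h⟩, ?_, ?_, ?_, ?_⟩
          · intro h'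
            exact h0 (hinj i hi 0 (by omega) (by rw [h, h', zero_add]))
          · intro h'
            exact h3 (hinj i hi (2 * m - 1) (by omega) (by rw [h, h', E4]))
          · intro h'
            exact h1 (hinj i hi m (by omega) (by rw [h, h']))
          · intro h'
            exact h2 (hinj i hi (m - 1) (by omega) (by rw [h, h', hm1]))
        · rintro ⟨h, h1, h2, h3, h4⟩
          obtain ⟨i, hi, hie⟩ := (C5_zt m p e).1 h
          refine ⟨i, hi, ?_, ?_, ?_, ?_, hie⟩
          · intro hq
            rw [hq, zero_add] at hie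
            exact h1 hie.symm
          · intro hq
            rw [hq] at hie
            exact h3 hie.symm
          · intro hq
            rw [hq, hm1] at hie
            exact h4 hie.symm
          · intro hq
            rw [hq, ← E4] at hie
            exact h2 hie.symm
      rw [key]
      simp only [n6, n7, n9, n10, n11, n12, n13, n14, false_or, or_false]
      exact C5_prop _ _ _ _ _ a0 a1 a2 a3 b0 b1 b2 b3

theorem C5 (h1 : ISO_stmt) (h2 : ZT_stmt) : C5_stmt := by
  intro W _ G σ m p A x D hG hp hA hxA hx e1 e2 hD hbd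
  obtain ⟨-, i2, i3, -, -, -⟩ := h1 W G σ m p hG hp
  obtain ⟨-, -, -, -, -, -, z7⟩ := h2 W m p hp.m3 i2 i3
  refine ⟨C5_geo hG hp i2 e1 e2, ?_, ?_, ?_⟩
  · intro t ht
    rw [mem_union, mem_sdiff] at ht
    rcases ht with ht | ht
    · exact hA.sub ht.1
    · rw [C5_mem_im hG.invol] at ht
      have h3 := hG.inv _ (hA.sub (hD ht))
      rwa [C5_im2 hG.invol] at h3
  · have hdis : Disjoint (A \ D) (D.image (Finset.image σ)) := by
      rw [Finset.disjoint_left]
      intro t ht ht'
      rw [C5_mem_im hG.invol] at ht'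
      rw [mem_sdiff] at ht
      have h4 := (hA.half t (hA.sub ht.1)).1 ht.1
      exact h4 (hD ht')
    have hsd : (A \ D) ∪ D.image (Finset.image σ) =
        symmDiff (symmDiff A D) (D.image (Finset.image σ)) := by
      rw [symmDiff_eq_sdiff' hD]
      ext t
      rw [mem_union, mem_symmDiff]
      have h6 : t ∈ A \ D → t ∉ D.image (Finset.image σ) := fun h => Finset.disjoint_left.1 hdis h
      constructor
      · rintro (h | h)
        · exact Or.inl ⟨h, h6 h⟩
        · exact Or.inr ⟨h, fun h' => h6 h' h⟩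
      · rintro (h | h)
        · exact Or.inl h.1
        · exact Or.inr h.1
    have hbi : bd (D.image (Finset.image σ)) = (bd D).image (Finset.image σ) := by
      ext e
      rw [C5_bd hG.invol, C5_mem_im hG.invol]
    rw [hsd, bd_symmDiff, bd_symmDiff, hbi, hA.bdA, hbd]
    exact C5_bdA hp.m3 hG.invol (hG.fix x) hp.per i2 hx z7
  · intro t ht
    have h3 := hA.half t ht
    have h4 : t ∈ D → t ∈ A := fun h => hD h
    have h5 : t.image σ ∈ D → t.image σ ∈ A := fun h => hD h
    rw [mem_union, mem_sdiff, mem_union, mem_sdiff, C5_mem_im hG.invol, C5_mem_im hG.invol,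
      C5_im2 hG.invol]
    tauto

end Pool.Agent.helper57.PP
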