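import Pool.Agent.helper25.PP.Spec

/-!
# pp:DBL: double counting of switchings
-/

set_option autoImplicit false

namespace PP

open Finset SimpleGraph CT

/-- **DBL.** -/
theorem DBL (h : SWR_stmt) : DBL_stmt := by
  classical
  intro V _ _ P Q A B m k hA hB hAB
  have h1 : m * cc P ≤ ((RP P).sigma A).card := by
    rw [Finset.card_sigma, mul_comm]
    unfold cc
    rw [← smul_eq_mul]
    refine Finset.card_nsmul_le_sum _ _ _ ?_
    intro G hG
    rw [mem_cc] at hG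
    exact hA G hG.1 hG.2
  have h2 : ((RP Q).sigma B).card ≤ k * cc Q := by
    rw [Finset.card_sigma, mul_comm]
    unfold cc
    rw [← smul_eq_mul]
    refine Finset.sum_le_card_nsmul _ _ _ ?_
    intro G hG
    rw [mem_cc] at hG
    exact hB G hG.1 hG.2
  have h3 : ((RP P).sigma A).card ≤ ((RP Q).sigma B).card := by
    refine Finset.card_le_card_of_injOn
      (fun x => (⟨sw x.1 x.2.1 x.2.2.1 x.2.2.2.1 x.2.2.2.2,
        (x.2.1, x.2.2.2.1, x.2.2.1, x.2.2.2.2)⟩ : Σ _ : SimpleGraph V, V × V × V × V)) ?_ ?_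
    · rintro ⟨G, a, b, c, d⟩ hx
      simp only [Finset.mem_coe, Finset.mem_sigma] at hx ⊢
      obtain ⟨hG, hx⟩ := hx
      rw [mem_cc] at hG
      obtain ⟨hok, hq, hb⟩ := hAB G hG.1 hG.2 a b c d hx
      refine ⟨?_, hb⟩
      rw [mem_cc]
      exact ⟨(h V G a b c d hG.1 hok).1, hq⟩
    · rintro ⟨G, a, b, c, d⟩ hx ⟨G', a', b', c', d'⟩ hx' heq
      simp only [Finset.mem_coe, Finset.mem_sigma] at hx hx'
      simp only [Sigma.mk.injEq, heq_eq_eq, Prod.mk.injEq] at heq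
      obtain ⟨hs, h1, h2, h3, h4⟩ := heq
      subst h1 h2 h3 h4
      obtain ⟨hG, hx⟩ := hx
      obtain ⟨hG', hx'⟩ := hx'
      rw [mem_cc] at hG hG'
      obtain ⟨hok, -, -⟩ := hAB G hG.1 hG.2 _ _ _ _ hx
      obtain ⟨hok', -, -⟩ := hAB G' hG'.1 hG'.2 _ _ _ _ hx'
      have e1 := (h V G _ _ _ _ hG.1 hok).2.2
      have e2 := (h V G' _ _ _ _ hG'.1 hok').2.2
      have : G = G' := by
        rw [← e1, ← e2, hs]
      rw [this]
  exact h1.trans (h3.trans h2)

end PP
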